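import Pool.Agent.Q1.RN.Count
import Mathlib.Probability.BorelCantelli
import Mathlib.Probability.HasLawExists
import Mathlib.Probability.Distributions.Bernoulli
import Mathlib.Algebra.Polynomial.Eval.Defs
import Mathlib.Algebra.Polynomial.Degree.Lemmas

set_option autoImplicit false

/-!
# The summability criterion fails for every degree `d ≥ 3`

Let `H = 16 d`. The support `A` of the random digits consists of the integers `n` which are less than
`4` times the largest power `H ^ j ≤ n`, or divisible by this power. Every large `s` is the sum of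
`≥ c s` different `d`-element subsets of `A` (each of them using one of the few elements of the gaps of
`A`), so `R_d(s)` grows linearly. But the digits at the `H - 4` elements `t H ^ j`, `4 ≤ t < H`, of the
gap between `4 H ^ j` and `H ^ (j+1)` vanish simultaneously with the fixed probability `2^(4-H)`,
independently for different `j`; almost surely this happens infinitely often, and then the digits of
`X ^ d` vanish at most places up to `H ^ (j+1)`.
-/

namespace Pool.Agent.Results.MP_28bf3c_nt.NoCriterion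

open Filter Topology MeasureTheory ProbabilityTheory Pool.Agent.Q1.RN

/-- `ξ₀, ξ₁, ξ₂, …` are independent `{0,1}`-valued random variables on the probability space `(Ω, μ)`
with `Pr(ξ_n = 1) = p_n`. -/
structure IsModel {Ω : Type} [MeasurableSpace Ω] (μ : Measure Ω) (p : ℕ → ℝ) (ξ : ℕ → Ω → ℝ) :
    Prop where
  prob : IsProbabilityMeasure μ
  meas : ∀ n, Measurable (ξ n)
  indep : iIndepFun ξ μ
  values : ∀ n ω, ξ n ω = 0 ∨ ξ n ω = 1
  law : ∀ n, μ {ω | ξ n ω = 1} = ENNReal.ofReal (p n)

/-- The random number `X = ∑_{n ≥ 1} ξ_n 2^(-n)`. -/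
noncomputable def X {Ω : Type} (ξ : ℕ → Ω → ℝ) (ω : Ω) : ℝ := ∑' n : ℕ, ξ (n + 1) ω * (1 / 2) ^ (n + 1)

/-- The assertion of Q1 for the degree `d`: there is a constant `c > 0` such that for every sequence
`(p_n)` in `[0, 1]` and every real polynomial `P` of degree `d` the convergence of
`∑ s exp (-c R_d(s))` implies that `P(X)` is almost surely absolutely normal. -/
def Criterion (d : ℕ) : Prop :=
  ∃ c : ℝ, 0 < c ∧ ∀ p : ℕ → ℝ, (∀ n, 0 ≤ p n ∧ p n ≤ 1) → ∀ P : Polynomial ℝ, P.natDegree = d →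
    Summable (fun s : ℕ => (s : ℝ) * Real.exp (-(c * R p d s))) →
    ∀ (Ω : Type) (_ : MeasurableSpace Ω) (μ : Measure Ω) (ξ : ℕ → Ω → ℝ), IsModel μ p ξ →
      ∀ᵐ ω ∂μ, AbsNormal (P.eval (X ξ ω))

theorem exists_model (p : ℕ → ℝ) (hp : ∀ n, 0 ≤ p n ∧ p n ≤ 1) :
    ∃ (Ω : Type) (_ : MeasurableSpace Ω) (μ : Measure Ω) (ξ : ℕ → Ω → ℝ), IsModel μ p ξ := by
  obtain ⟨Ω, mΩ, μ, Y, hYm, hYl, hYi, hprob⟩ := exists_hasLaw_indepFun (fun _ : ℕ => Bool)
    (fun n => bernoulliMeasure true false (⟨p n, hp n⟩ : unitInterval))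
  refine ⟨Ω, mΩ, μ, fun n ω => if Y n ω = true then 1 else 0, hprob, ?_, ?_, ?_, ?_⟩
  · intro n
    exact (measurable_of_finite (fun b : Bool => if b = true then (1 : ℝ) else 0)).comp (hYm n)
  · exact hYi.comp (fun _ => fun b : Bool => if b = true then (1 : ℝ) else 0)
      (fun _ => measurable_of_finite _)
  · intro n ω
    by_cases h : Y n ω = true
    · right; simp [h]
    · left; simp [h]
  · intro n
    have h1 : {ω | (if Y n ω = true then (1 : ℝ) else 0) = 1} = Y n ⁻¹' {true} := by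
      ext ω
      by_cases h : Y n ω = true <;> simp [h]
    rw [h1, ← Measure.map_apply (hYm n) (MeasurableSet.singleton _), (hYl n).map_eq,
      bernoulliMeasure_apply_of_mem_of_notMem _ (MeasurableSet.singleton _) (by simp) (by simp)]
    rw [ENNReal.ofReal, ENNReal.coe_inj]
    ext
    simp [(hp n).1]

/-- the gap elements -/
def gap (H j : ℕ) : Finset ℕ := (Finset.Ico 4 H).image (fun t => t * H ^ j)

theorem gap_log {H j n : ℕ} (hn : n ∈ gap H j) : H ^ j ≤ n ∧ n < H ^ (j + 1) := by
  unfold gap at hn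
  rw [Finset.mem_image] at hn
  obtain ⟨t, ht, rfl⟩ := hn
  rw [Finset.mem_Ico] at ht
  have hpos : 0 < H ^ j := Nat.pow_pos (by omega)
  constructor
  · exact Nat.le_mul_of_pos_left _ (by omega)
  · rw [pow_succ, mul_comm (H ^ j) H]
    exact Nat.mul_lt_mul_of_pos_right ht.2 hpos

theorem gap_disjoint (H : ℕ) : Pairwise (fun j j' => Disjoint (gap H j) (gap H j')) := by
  intro j j' hjj
  rw [Finset.disjoint_left]
  intro n h1 h2
  have e1 := gap_log h1
  have e2 := gap_log h2
  exact hjj ((log_spec e1.1 e1.2).symm.trans (log_spec e2.1 e2.2))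

theorem gap_inA {H j n : ℕ} (hn : n ∈ gap H j) : inA H n := by
  have h := gap_log hn
  unfold gap at hn
  rw [Finset.mem_image] at hn
  obtain ⟨t, ht, rfl⟩ := hn
  rw [Finset.mem_Ico] at ht
  exact inA_of_lt (j := j) (by omega) h.1 h.2 (Or.inr (Dvd.intro_left t rfl))

theorem gap_card {H : ℕ} (hH : 4 ≤ H) (j : ℕ) : (gap H j).card = H - 4 := by
  unfold gap
  rw [Finset.card_image_of_injective, Nat.card_Ico]
  intro a b hab
  have hpos : 0 < H ^ j := Nat.pow_pos (by omega)
  exact Nat.eq_of_mul_eq_mul_right hpos hab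

/-- an element of the support in the gap is a gap element -/
theorem mem_gap {H j n : ℕ} (h1 : 4 * H ^ j ≤ n) (h2 : n < H ^ (j + 1)) (hA : inA H n) :
    n ∈ gap H j := by
  have hH : 0 < H := by
    rcases Nat.eq_zero_or_pos H with h | h
    · subst h; simp at h2
    · exact h
  have hpos : 0 < H ^ j := Nat.pow_pos hH
  have hlog : Nat.log H n = j := log_spec (by omega) h2
  unfold inA at hA
  rw [hlog] at hA
  rcases hA with h | ⟨t, ht⟩
  · omega
  · unfold gap
    rw [Finset.mem_image]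
    refine ⟨t, ?_, by rw [ht]; ring⟩
    rw [Finset.mem_Ico]
    constructor
    · by_contra hcon
      push Not at hcon
      have : H ^ j * t < H ^ j * 4 := Nat.mul_lt_mul_of_pos_left hcon hpos
      omega
    · by_contra hcon
      push Not at hcon
      have : H ^ j * H ≤ H ^ j * t := Nat.mul_le_mul_left _ hcon
      rw [pow_succ] at h2
      omega

/-- For `d ≥ 3` and the sequence `p_n ∈ {0, 1/2}` with the support `A`, the power `X ^ d` is almost
surely not normal in base `2`. -/
theorem not_normal_ae (d : ℕ) (hd : 3 ≤ d) {Ω : Type} [MeasurableSpace Ω] (μ : Measure Ω)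
    (ξ : ℕ → Ω → ℝ) (h : IsModel μ (pp (16 * d)) ξ) : ∀ᵐ ω ∂μ, ¬ NormalBase 2 (X ξ ω ^ d) := by
  classical
  have hprob := h.prob
  set H := 16 * d with hH
  -- probability that a digit is not one
  have hne : ∀ n, inA H n → μ (ξ n ⁻¹' {1}ᶜ) = ENNReal.ofReal (1 / 2) := by
    intro n hn
    have h1 : μ (ξ n ⁻¹' {1}) = ENNReal.ofReal (1 / 2) := by
      have := h.law n
      have e : pp H n = 1 / 2 := by unfold pp; rw [if_pos hn]
      rw [e] at this
      exact this
    rw [Set.preimage_compl, prob_compl_eq_one_sub (h.meas n (MeasurableSet.singleton _)), h1,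
      ← ENNReal.ofReal_one, ← ENNReal.ofReal_sub _ (by norm_num)]
    norm_num
  have h0 : ∀ᵐ ω ∂μ, ∀ n, ¬ inA H n → ξ n ω = 0 := by
    rw [ae_all_iff]
    intro n
    by_cases hn : inA H n
    · exact Eventually.of_forall fun ω hh => absurd hn hh
    · have h1 := h.law n
      have e : pp H n = 0 := by unfold pp; rw [if_neg hn]
      rw [e, ENNReal.ofReal_zero] at h1
      have h2 : ∀ᵐ ω ∂μ, ξ n ω ≠ 1 := by
        rw [ae_iff]
        simpa using h1
      filter_upwards [h2] with ω hω _
      rcases h.values n ω with h3 | h3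
      · exact h3
      · exact absurd h3 hω
  -- the events
  set G : ℕ → Set Ω := fun j => ⋂ n ∈ gap H j, ξ n ⁻¹' {1}ᶜ with hG
  have hGm : ∀ j, MeasurableSet (G j) := fun j =>
    Finset.measurableSet_biInter _ fun n _ => h.meas n (MeasurableSet.singleton _).compl
  have hGμ : ∀ j, μ (G j) = ∏ n ∈ gap H j, μ (ξ n ⁻¹' {1}ᶜ) := fun j =>
    h.indep.measure_inter_preimage_eq_mul (gap H j) (sets := fun _ => {1}ᶜ)
      (fun _ _ => (MeasurableSet.singleton _).compl)
  have hGi : iIndepSet G μ := by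
    rw [iIndepSet_iff_meas_biInter hGm]
    intro S
    have e1 : (⋂ j ∈ S, G j) = ⋂ n ∈ S.biUnion (gap H), ξ n ⁻¹' {1}ᶜ := by
      ext ω
      simp only [hG, Set.mem_iInter, Finset.mem_biUnion]
      constructor
      · rintro h1 n ⟨j, hj, hn⟩
        exact h1 j hj n hn
      · intro h1 j hj n hn
        exact h1 n ⟨j, hj, hn⟩
    rw [e1, h.indep.measure_inter_preimage_eq_mul (S.biUnion (gap H)) (sets := fun _ => {1}ᶜ)
      (fun _ _ => (MeasurableSet.singleton _).compl), Finset.prod_biUnion]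
    · exact Finset.prod_congr rfl fun j _ => (hGμ j).symm
    · intro j _ j' _ hjj
      exact gap_disjoint H hjj
  have hGval : ∀ j, μ (G j) = ENNReal.ofReal (1 / 2) ^ (H - 4) := by
    intro j
    rw [hGμ j, Finset.prod_congr rfl (fun n hn => hne n (gap_inA hn)), Finset.prod_const,
      gap_card (by omega)]
  have hsum : ∑' j, μ (G j) = ⊤ := by
    simp_rw [hGval]
    apply ENNReal.tsum_const_eq_top_of_ne_zero
    apply pow_ne_zero
    rw [Ne, ENNReal.ofReal_eq_zero]
    norm_num
  have hlim := measure_limsup_eq_one hGm hGi hsum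
  have hae : ∀ᵐ ω ∂μ, ω ∈ limsup G atTop := by
    rw [ae_iff]
    have : {ω | ¬ ω ∈ limsup G atTop} = (limsup G atTop)ᶜ := rfl
    rw [this, prob_compl_eq_zero_iff (MeasurableSet.measurableSet_limsup hGm)]
    exact hlim
  filter_upwards [h0, hae] with ω hω0 hω1
  rw [Filter.mem_limsup_iff_frequently_mem] at hω1
  have ha : ∀ n, (fun n => ξ n ω) n = 0 ∨ (fun n => ξ n ω) n = 1 := fun n => h.values n ω
  have hfreq : ∃ᶠ N : ℕ in atTop, ∀ n, 4 * N ≤ n → n < 16 * d * N → (fun n => ξ n ω) n = 0 := by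
    have htend : Tendsto (fun j : ℕ => H ^ j) atTop atTop := by
      apply tendsto_pow_atTop_atTop_of_one_lt
      omega
    apply htend.frequently
    refine hω1.mono fun j hj n hn1 hn2 => ?_
    have hn2' : n < H ^ (j + 1) := by
      rw [pow_succ, mul_comm]
      exact hn2
    by_cases hA : inA H n
    · have hmem := mem_gap hn1 hn2' hA
      simp only [hG, Set.mem_iInter] at hj
      have h5 := hj n hmem
      rcases h.values n ω with h6 | h6
      · exact h6
      · exact absurd h6 h5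
    · exact hω0 n hA
  exact not_normal ha d (by omega) hfreq

/-- **The answer to Q1 is negative**, for every degree `d ≥ 3`. There are numbers `p_n ∈ {0, 1/2}` such
that `∑ s exp (-c R_d(s))` converges for every `c > 0`, while almost surely `X ^ d` is not normal in base
`2`. In particular the criterion of Q1 fails for every `d ≥ 3`, so it is not true for all `d ≥ 2`. -/
theorem result :
    (∀ d : ℕ, 3 ≤ d → ∃ p : ℕ → ℝ, (∀ n, p n = 0 ∨ p n = 1 / 2) ∧
      (∀ c : ℝ, 0 < c → Summable (fun s : ℕ => (s : ℝ) * Real.exp (-(c * R p d s)))) ∧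
      (∃ (Ω : Type) (_ : MeasurableSpace Ω) (μ : Measure Ω) (ξ : ℕ → Ω → ℝ), IsModel μ p ξ) ∧
      ∀ (Ω : Type) (_ : MeasurableSpace Ω) (μ : Measure Ω) (ξ : ℕ → Ω → ℝ), IsModel μ p ξ →
        ∀ᵐ ω ∂μ, ¬ NormalBase 2 (X ξ ω ^ d)) ∧
    (∀ d : ℕ, 3 ≤ d → ¬ Criterion d) ∧ ¬ (∀ d : ℕ, 2 ≤ d → Criterion d) := by
  have hp : ∀ (d n : ℕ), pp (16 * d) n = 0 ∨ pp (16 * d) n = 1 / 2 := by
    intro d n
    unfold pp
    split_ifs
    · right; rfl
    · left; rfl
  have hp' : ∀ (d n : ℕ), 0 ≤ pp (16 * d) n ∧ pp (16 * d) n ≤ 1 := by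
    intro d n
    rcases hp d n with h | h <;> rw [h] <;> norm_num
  have h3 : ∀ d : ℕ, 3 ≤ d → ¬ Criterion d := by
    rintro d hd ⟨c, hc, h⟩
    obtain ⟨Ω, mΩ, μ, ξ, hm⟩ := exists_model (pp (16 * d)) (hp' d)
    have h1 := h (pp (16 * d)) (hp' d) (Polynomial.X ^ d) (Polynomial.natDegree_X_pow d)
      (summable_R d hd c hc) Ω mΩ μ ξ hm
    have h2 := not_normal_ae d hd μ ξ hm
    have hprob := hm.prob
    obtain ⟨ω, h4, h5⟩ := (h1.and h2).exists
    apply h5
    have h6 := h4 2 le_rfl
    rwa [Polynomial.eval_pow, Polynomial.eval_X] at h6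
  refine ⟨fun d hd => ⟨pp (16 * d), hp d, fun c hc => summable_R d hd c hc,
    exists_model _ (hp' d), fun Ω mΩ μ ξ hm => not_normal_ae d hd μ ξ hm⟩, h3, ?_⟩
  intro h
  exact h3 3 le_rfl (h 3 (by norm_num))

end Pool.Agent.Results.MP_28bf3c_nt.NoCriterion
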